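import Mathlib

/-!
# The kernel of the matrix of jets modulo a bad prime, in general form

`F` a field, `Z = X^P - 1`, polynomials `Λ c` of degree `≤ P` with vanishing coefficients in `[E, W)`,
blocks `Π c`, shifts `s a` and polynomials `R c a` with
`Π_c(X+s_a) (Z(X) Λ_c(X+s_a) - Z(X+s_a) Λ_c(X)) = Z(X) Z(X+s_a) R_{c,a}(X)`.  The matrix of the conditions
`∑_e C_e(s_a+y) y^e + ∑_c B'_c(s_a+y) R_{c,a}(y) = O(y^W)` (`a < m`, `deg C_e < n`, `deg B'_c < n_c`) has a
kernel of dimension at least `∑ n_c - P` (`ker_gen`).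
-/

namespace H65FD

open Finset Polynomial

theorem kg_exists {F : Type*} [Field F] (P : ℕ → F[X]) :
    ∀ N : ℕ, (∀ i < N, (P i).degree = (i : ℕ)) → ∀ Q : F[X], Q.degree < (N : ℕ) →
      ∃ c : ℕ → F, Q = ∑ i ∈ range N, C (c i) * P i := by
  intro N
  induction N with
  | zero =>
    intro _ Q hQ
    refine ⟨fun _ => 0, ?_⟩
    rw [range_zero, sum_empty]
    rw [Nat.cast_zero] at hQ
    exact degree_eq_bot.1 ((Nat.WithBot.lt_zero_iff).1 hQ)
  | succ N ih =>
    intro hP Q hQ
    have hPN : (P N).degree = (N : ℕ) := hP N (Nat.lt_succ_self N)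
    have hPc : (P N).coeff N ≠ 0 := by
      have h0 : (P N).natDegree = N := natDegree_eq_of_degree_eq_some hPN
      intro h1
      have h2 : (P N).leadingCoeff = 0 := by rw [leadingCoeff, h0, h1]
      rw [leadingCoeff_eq_zero] at h2
      rw [h2, degree_zero] at hPN
      exact absurd hPN (WithBot.bot_ne_natCast N)
    have hQ' : (Q - C (Q.coeff N / (P N).coeff N) * P N).degree < (N : ℕ) := by
      rw [degree_lt_iff_coeff_zero]
      intro m hm
      rw [coeff_sub, coeff_C_mul]
      rcases Nat.eq_or_lt_of_le hm with h | h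
      · rw [← h, div_mul_cancel₀ _ hPc, sub_self]
      · have h1 : Q.coeff m = 0 :=
          coeff_eq_zero_of_degree_lt (lt_of_lt_of_le hQ (by exact_mod_cast h))
        have h2 : (P N).coeff m = 0 :=
          coeff_eq_zero_of_degree_lt (by rw [hPN]; exact_mod_cast h)
        rw [h1, h2, mul_zero, sub_zero]
    obtain ⟨c, hc⟩ := ih (fun i hi => hP i (by omega)) _ hQ'
    refine ⟨fun i => if i = N then Q.coeff N / (P N).coeff N else c i, ?_⟩
    rw [sum_range_succ]
    beta_reduce
    rw [if_pos rfl]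
    have h1 : ∑ i ∈ range N, C (if i = N then Q.coeff N / (P N).coeff N else c i) * P i
        = ∑ i ∈ range N, C (c i) * P i := by
      refine sum_congr rfl fun i hi => ?_
      rw [if_neg (by rw [mem_range] at hi; omega)]
    rw [h1, ← hc]
    ring

/-- the matrix of the conditions -/
noncomputable def KMat {F : Type*} [Field F] (E K n m W : ℕ) (nc : Fin K → ℕ) (Q : ℕ → F[X])
    (s : ℕ → F) (R : Fin K → ℕ → F[X]) :
    Matrix (Fin m × Fin W) ((Fin E × Fin n) ⊕ (Σ c : Fin K, Fin (nc c))) F := fun r c =>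
  match c with
  | Sum.inl (e, i) => ((Q i).comp (X + C (s r.1.val)) * X ^ e.val).coeff r.2.val
  | Sum.inr ⟨c, i⟩ => ((Q i).comp (X + C (s r.1.val)) * R c r.1.val).coeff r.2.val

theorem kg_row {F : Type*} [Field F] (E K n m W : ℕ) (nc : Fin K → ℕ) (Q : ℕ → F[X])
    (s : ℕ → F) (R : Fin K → ℕ → F[X]) (v : (Fin E × Fin n) ⊕ (Σ c : Fin K, Fin (nc c)) → F)
    (r : Fin m × Fin W) :
    (KMat E K n m W nc Q s R).mulVec v r =
      (∑ e : Fin E, (∑ j : Fin n, C (v (Sum.inl (e, j))) * Q j).comp (X + C (s r.1.val)) * X ^ e.val +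
        ∑ c : Fin K, (∑ j : Fin (nc c), C (v (Sum.inr ⟨c, j⟩)) * Q j).comp (X + C (s r.1.val)) *
            R c r.1.val).coeff r.2.val := by
  rw [Matrix.mulVec, dotProduct, Fintype.sum_sum_type, Fintype.sum_prod_type, Fintype.sum_sigma,
    coeff_add, finsetSum_coeff, finsetSum_coeff]
  congr 1
  · refine sum_congr rfl fun e _ => ?_
    rw [Polynomial.sum_comp, sum_mul, finsetSum_coeff]
    refine sum_congr rfl fun j _ => ?_
    rw [mul_comp, C_comp, mul_assoc, coeff_C_mul, mul_comm]
    rfl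
  · refine sum_congr rfl fun c _ => ?_
    rw [Polynomial.sum_comp, sum_mul, finsetSum_coeff]
    refine sum_congr rfl fun j _ => ?_
    rw [mul_comp, C_comp, mul_assoc, coeff_C_mul, mul_comm]
    rfl

/-- coefficients of `B L` below `W` only depend on the coefficients of `L` below `W` -/
theorem kg_coeff_mul {F : Type*} [Field F] (B L L' : F[X]) (W i : ℕ) (hi : i < W)
    (h : ∀ j < W, L.coeff j = L'.coeff j) : (B * L).coeff i = (B * L').coeff i := by
  rw [coeff_mul, coeff_mul]
  refine sum_congr rfl fun q hq => ?_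
  rw [HasAntidiagonal.mem_antidiagonal] at hq
  rw [h q.2 (by omega)]

/-- the solution of the conditions attached to `B'` with `Z ∣ U` -/
theorem kg_key {F : Type*} [Field F] (E K n m W P : ℕ) (hE : 1 ≤ E) (hW : 1 ≤ W) (hWP : W ≤ P)
    (nc : Fin K → ℕ) (Pi Λ : Fin K → F[X]) (s : ℕ → F) (R : Fin K → ℕ → F[X])
    (hPi : ∀ c, 0 < nc c → (Pi c).natDegree + nc c ≤ n) (hΛ : ∀ c, (Λ c).natDegree ≤ P)
    (hlow : ∀ c j, E ≤ j → j < W → (Λ c).coeff j = 0)
    (hs : ∀ c, ∀ a < m, (Pi c).comp (X + C (s a)) *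
      ((X ^ P - 1) * (Λ c).comp (X + C (s a)) - ((X + C (s a)) ^ P - 1) * Λ c) =
        (X ^ P - 1) * ((X + C (s a)) ^ P - 1) * R c a)
    (B : Fin K → F[X]) (hB : ∀ c, (B c).degree < ((nc c : ℕ) : WithBot ℕ))
    (hU : (X ^ P - 1 : F[X]) ∣ ∑ c, Pi c * B c * Λ c) :
    ∃ A : Fin E → F[X], (∀ e, (A e).degree < ((n : ℕ) : WithBot ℕ)) ∧
      ∀ a < m, ∀ i < W,
        (∑ e : Fin E, (A e).comp (X + C (s a)) * X ^ e.val +
          ∑ c, (B c).comp (X + C (s a)) * R c a).coeff i = 0 := by
  obtain ⟨G, hG⟩ := hU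
  obtain ⟨Bc, hBc⟩ : ∃ Bc : Fin K → F[X], ∀ c, Bc c = Pi c * B c := ⟨_, fun _ => rfl⟩
  have hP0 : 0 < P := by omega
  have hBcd : ∀ c, (Bc c).degree < ((n : ℕ) : WithBot ℕ) := by
    intro c
    by_cases h0 : B c = 0
    · rw [hBc, h0, mul_zero, degree_zero]
      exact WithBot.bot_lt_natCast _
    · have h1 := hB c
      rw [degree_eq_natDegree h0] at h1
      have h2 : (B c).natDegree < nc c := by exact_mod_cast h1
      have h3 := hPi c (by omega)
      have h5 : (Bc c).natDegree < n := by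
        rw [hBc]
        refine lt_of_le_of_lt natDegree_mul_le ?_
        omega
      exact lt_of_le_of_lt degree_le_natDegree (by exact_mod_cast h5)
  have hX1 : (X ^ P - 1 : F[X]).degree = ((P : ℕ) : WithBot ℕ) := by
    rw [← C_1]
    exact degree_X_pow_sub_C hP0 1
  have hGd : G.degree < ((n : ℕ) : WithBot ℕ) := by
    by_cases h0 : G = 0
    · rw [h0, degree_zero]
      exact WithBot.bot_lt_natCast _
    · have h1 : ((X ^ P - 1 : F[X]) * G) ∈ degreeLT F (n + P) := by
        rw [← hG]
        refine Submodule.sum_mem _ fun c _ => ?_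
        rw [mem_degreeLT, ← hBc]
        by_cases h2 : Bc c = 0
        · rw [h2, zero_mul, degree_zero]
          exact WithBot.bot_lt_natCast _
        · have h3 := hBcd c
          rw [degree_eq_natDegree h2] at h3
          have h4 : (Bc c).natDegree < n := by exact_mod_cast h3
          have h5 := hΛ c
          have h7 : (Bc c * Λ c).natDegree < n + P := by
            refine lt_of_le_of_lt natDegree_mul_le ?_
            omega
          exact lt_of_le_of_lt degree_le_natDegree (by exact_mod_cast h7)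
      rw [mem_degreeLT, degree_mul, hX1, degree_eq_natDegree h0] at h1
      rw [degree_eq_natDegree h0]
      have h2 : P + G.natDegree < n + P := by exact_mod_cast h1
      exact_mod_cast (by omega : G.natDegree < n)
  refine ⟨fun e => (if e.val = 0 then -G else 0) - ∑ c, C ((Λ c).coeff e.val) * Bc c,
    fun e => ?_, fun a ha i hi => ?_⟩
  · rw [← mem_degreeLT]
    refine Submodule.sub_mem _ ?_ ?_
    · split_ifs with h
      · exact Submodule.neg_mem _ (mem_degreeLT.2 hGd)
      · exact Submodule.zero_mem _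
    · refine Submodule.sum_mem _ fun c _ => ?_
      rw [← smul_eq_C_mul]
      exact Submodule.smul_mem _ _ (mem_degreeLT.2 (hBcd c))
  · obtain ⟨z, hz⟩ : ∃ z : F[X], z = X + C (s a) := ⟨_, rfl⟩
    have hTa : (z ^ P - 1 : F[X]) ≠ 0 := by
      intro h0
      have h1 : z.degree = 1 := by rw [hz]; exact degree_X_add_C _
      have h2 : (z ^ P).degree = ((P : ℕ) : WithBot ℕ) := by
        rw [degree_pow, h1, nsmul_one]
      rw [sub_eq_zero.1 h0, degree_one] at h2
      have h3 : (0 : ℕ) = P := by exact_mod_cast h2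
      omega
    have hUc : (z ^ P - 1) * G.comp z = ∑ c, (Bc c).comp z * (Λ c).comp z := by
      have h1 := congrArg (fun q : F[X] => q.comp z) hG
      beta_reduce at h1
      rw [mul_comp, sub_comp, pow_comp, X_comp, one_comp] at h1
      rw [← h1, Polynomial.sum_comp]
      refine sum_congr rfl fun c _ => ?_
      rw [← hBc, mul_comp]
    have hE1 : (X ^ P - 1) * G.comp z - ∑ c, (Bc c).comp z * Λ c
        = (X ^ P - 1) * ∑ c, (B c).comp z * R c a := by
      refine mul_left_cancel₀ hTa ?_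
      have h1 : (z ^ P - 1) * ((X ^ P - 1) * G.comp z - ∑ c, (Bc c).comp z * Λ c)
          = (X ^ P - 1) * ((z ^ P - 1) * G.comp z) - (z ^ P - 1) *
            ∑ c, (Bc c).comp z * Λ c := by ring
      rw [h1, hUc, mul_sum, mul_sum, ← sum_sub_distrib, mul_sum, mul_sum]
      refine sum_congr rfl fun c _ => ?_
      have h2 := hs c a ha
      rw [← hz] at h2
      rw [hBc, mul_comp]
      linear_combination (B c).comp z * h2
    have hcf : ∀ Q : F[X], ((X ^ P - 1) * Q).coeff i = - Q.coeff i := by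
      intro Q
      rw [sub_mul, one_mul, coeff_sub, coeff_X_pow_mul', if_neg (by omega), zero_sub]
    have hE2 := congrArg (fun q : F[X] => q.coeff i) hE1
    beta_reduce at hE2
    rw [coeff_sub, hcf, hcf] at hE2
    have hlow' : (∑ c, (Bc c).comp z * Λ c).coeff i
        = (∑ c, (Bc c).comp z * ∑ e : Fin E, C ((Λ c).coeff e.val) * X ^ e.val).coeff i := by
      rw [finsetSum_coeff, finsetSum_coeff]
      refine sum_congr rfl fun c _ => ?_
      refine kg_coeff_mul _ _ _ W i hi fun j hj => ?_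
      rw [finsetSum_coeff]
      by_cases hjw : j < E
      · rw [sum_eq_single (⟨j, hjw⟩ : Fin E)]
        · rw [coeff_C_mul_X_pow, if_pos rfl]
        · intro b _ hb
          rw [coeff_C_mul_X_pow, if_neg]
          intro h
          exact hb (Fin.ext h.symm)
        · intro h
          exact absurd (mem_univ _) h
      · rw [hlow c j (not_lt.1 hjw) hj]
        symm
        refine sum_eq_zero fun b _ => ?_
        rw [coeff_C_mul_X_pow, if_neg]
        have := b.isLt
        omega
    rw [← hz]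
    have hfin : ∑ e : Fin E, ((if e.val = 0 then -G else 0) -
        ∑ c, C ((Λ c).coeff e.val) * Bc c).comp z * X ^ e.val
        = - G.comp z - ∑ c, (Bc c).comp z * ∑ e : Fin E, C ((Λ c).coeff e.val) * X ^ e.val := by
      have h1 : ∑ c, (Bc c).comp z * ∑ e : Fin E, C ((Λ c).coeff e.val) * X ^ e.val
          = ∑ e : Fin E, (∑ c, C ((Λ c).coeff e.val) * (Bc c).comp z) * X ^ e.val := by
        simp only [mul_sum, sum_mul]
        rw [sum_comm]
        refine sum_congr rfl fun e _ => sum_congr rfl fun c _ => ?_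
        ring
      have h2 : ∑ e : Fin E, (if e.val = 0 then -G else 0).comp z * X ^ e.val = - G.comp z := by
        rw [sum_eq_single (⟨0, by omega⟩ : Fin E)]
        · rw [if_pos rfl, neg_comp, pow_zero, mul_one]
        · intro b _ hb
          rw [if_neg, zero_comp, zero_mul]
          intro h
          exact hb (Fin.ext h)
        · intro h
          exact absurd (mem_univ _) h
      rw [h1, ← h2, ← sum_sub_distrib]
      refine sum_congr rfl fun e _ => ?_
      rw [sub_comp, Polynomial.sum_comp, sub_mul]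
      congr 3
      funext c
      rw [mul_comp, C_comp]
    rw [hfin, coeff_add, coeff_sub, coeff_neg]
    rw [hlow'] at hE2
    linear_combination hE2

theorem ker_gen {F : Type*} [Field F] (E K n m W P : ℕ) (hE : 1 ≤ E) (hW : 1 ≤ W) (hWP : W ≤ P)
    (nc : Fin K → ℕ) (hnc : ∀ c, nc c ≤ n) (Q : ℕ → F[X]) (hQ : ∀ i < n, (Q i).degree = (i : ℕ))
    (Pi Λ : Fin K → F[X]) (s : ℕ → F) (R : Fin K → ℕ → F[X])
    (hPi : ∀ c, 0 < nc c → (Pi c).natDegree + nc c ≤ n) (hΛ : ∀ c, (Λ c).natDegree ≤ P)
    (hlow : ∀ c j, E ≤ j → j < W → (Λ c).coeff j = 0)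
    (hs : ∀ c, ∀ a < m, (Pi c).comp (X + C (s a)) *
      ((X ^ P - 1) * (Λ c).comp (X + C (s a)) - ((X + C (s a)) ^ P - 1) * Λ c) =
        (X ^ P - 1) * ((X + C (s a)) ^ P - 1) * R c a) :
    ∑ c, nc c ≤ Module.finrank F (LinearMap.ker (KMat E K n m W nc Q s R).mulVecLin) + P := by
  classical
  have hP0 : 0 < P := by omega
  -- the map `u ↦ U`
  let L : ((Σ c : Fin K, Fin (nc c)) → F) →ₗ[F] F[X] :=
    { toFun := fun u => ∑ c, Pi c * (∑ j : Fin (nc c), C (u ⟨c, j⟩) * Q j) * Λ c
      map_add' := fun u v => by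
        rw [← sum_add_distrib]
        refine sum_congr rfl fun c _ => ?_
        rw [← add_mul, ← mul_add, ← sum_add_distrib]
        congr 2
        refine sum_congr rfl fun j _ => ?_
        rw [_root_.Pi.add_apply, C_add, add_mul]
      map_smul' := fun r u => by
        rw [RingHom.id_apply, smul_sum]
        refine sum_congr rfl fun c _ => ?_
        rw [← smul_mul_assoc, ← mul_smul_comm, smul_sum]
        congr 2
        refine sum_congr rfl fun j _ => ?_
        rw [_root_.Pi.smul_apply, smul_eq_mul, C_mul, smul_eq_C_mul, mul_assoc] }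
  let ρ : ((Σ c : Fin K, Fin (nc c)) → F) →ₗ[F] (Fin P → F) :=
    LinearMap.pi fun j => (lcoeff F j.val).comp ((modByMonicHom (X ^ P - 1 : F[X])).comp L)
  have hZm : (X ^ P - 1 : F[X]).Monic := by
    rw [← C_1]
    exact monic_X_pow_sub_C 1 hP0.ne'
  have hZd : (X ^ P - 1 : F[X]).degree = ((P : ℕ) : WithBot ℕ) := by
    rw [← C_1]
    exact degree_X_pow_sub_C hP0 1
  have hρ : ∀ u, ρ u = 0 → (X ^ P - 1 : F[X]) ∣ L u := by
    intro u hu
    rw [← modByMonic_eq_zero_iff_dvd hZm]
    ext k
    rw [coeff_zero]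
    by_cases hk : k < P
    · exact congrFun hu ⟨k, hk⟩
    · refine coeff_eq_zero_of_degree_lt ?_
      refine lt_of_lt_of_le (degree_modByMonic_lt _ hZm) ?_
      rw [hZd]
      exact_mod_cast not_lt.1 hk
  have hle : LinearMap.ker ρ ≤ (LinearMap.ker (KMat E K n m W nc Q s R).mulVecLin).map
      (LinearMap.funLeft F F Sum.inr) := by
    intro u hu
    rw [LinearMap.mem_ker] at hu
    obtain ⟨A, hA, hA2⟩ := kg_key E K n m W P hE hW hWP nc Pi Λ s R hPi hΛ hlow hs
      (fun c => ∑ j : Fin (nc c), C (u ⟨c, j⟩) * Q j) (fun c => by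
        rw [← mem_degreeLT]
        refine Submodule.sum_mem _ fun j _ => ?_
        rw [← smul_eq_C_mul]
        refine Submodule.smul_mem _ _ ?_
        rw [mem_degreeLT, hQ j.val (lt_of_lt_of_le j.isLt (hnc c))]
        exact_mod_cast j.isLt) (hρ u hu)
    have hco : ∀ e : Fin E, ∃ q : ℕ → F, A e = ∑ i ∈ range n, C (q i) * Q i :=
      fun e => kg_exists Q n hQ (A e) (hA e)
    choose q hq using hco
    refine Submodule.mem_map.2 ⟨Sum.elim (fun t => q t.1 t.2.val) u, ?_, ?_⟩
    · rw [LinearMap.mem_ker]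
      funext r
      rw [Matrix.mulVecLin_apply, kg_row, _root_.Pi.zero_apply]
      have h1 := hA2 r.1.val r.1.isLt r.2.val r.2.isLt
      rw [← h1]
      congr 2
      refine sum_congr rfl fun e _ => ?_
      rw [hq e, ← Fin.sum_univ_eq_sum_range (fun i => C (q e i) * Q i)]
      rfl
    · funext t
      rfl
  have h1 : Module.finrank F (LinearMap.ker ρ) ≤
      Module.finrank F (LinearMap.ker (KMat E K n m W nc Q s R).mulVecLin) :=
    (Submodule.finrank_mono hle).trans (Submodule.finrank_map_le _ _)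
  have h2 := LinearMap.finrank_range_add_finrank_ker ρ
  have h3 : Module.finrank F (LinearMap.range ρ) ≤ P := by
    have h4 := Submodule.finrank_le (LinearMap.range ρ)
    rwa [Module.finrank_fintype_fun_eq_card, Fintype.card_fin] at h4
  rw [Module.finrank_fintype_fun_eq_card, Fintype.card_sigma] at h2
  have h5 : ∑ c : Fin K, Fintype.card (Fin (nc c)) = ∑ c, nc c :=
    sum_congr rfl fun c _ => Fintype.card_fin _
  rw [h5] at h2
  omega

end H65FD
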