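import Mathlib

/-!
# Project FD, Step 2: the ultrametric Newton series and its gap principle

`f : ℕ → k`, `k` a nonarchimedean field with the `l`-adic absolute value on `ℕ`, `l ≥ 3`, and
`‖Δ^r f (0)‖ ≤ l^(-r)`. Then `a_r = Δ^r f (0) / r!` tends to `0`. If `f` is not identically `0`, let `D` be the
last index with `‖a_D‖` maximal. The divided difference of `f` at any `D + 1` distinct natural numbers has
absolute value `≥ ‖a_D‖`, hence `‖a_D‖ ≤ ε S^D` if these numbers are `≤ S` and `‖f‖ ≤ ε` there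
(`newton_gap`).
-/

namespace H65FD

open Finset Polynomial

section

variable {k : Type*} [NormedField k] [IsUltrametricDist k]

theorem norm_sum_lt_of_lt {ι : Type*} (s : Finset ι) (g : ι → k) (c : ℝ) (hc : 0 < c)
    (h : ∀ i ∈ s, ‖g i‖ < c) : ‖∑ i ∈ s, g i‖ < c := by
  classical
  induction s using Finset.induction_on with
  | empty => simpa using hc
  | insert a s ha ih =>
    rw [sum_insert ha]
    exact (IsUltrametricDist.norm_add_le_max _ _).trans_lt
      (max_lt (h a (mem_insert_self a s)) (ih fun i hi => h i (mem_insert_of_mem hi)))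

theorem norm_sum_le_of_le {ι : Type*} (s : Finset ι) (g : ι → k) (c : ℝ) (hc : 0 ≤ c)
    (h : ∀ i ∈ s, ‖g i‖ ≤ c) : ‖∑ i ∈ s, g i‖ ≤ c := by
  classical
  induction s using Finset.induction_on with
  | empty => simpa using hc
  | insert a s ha ih =>
    rw [sum_insert ha]
    exact (IsUltrametricDist.norm_add_le_max _ _).trans
      (max_le (h a (mem_insert_self a s)) (ih fun i hi => h i (mem_insert_of_mem hi)))

theorem norm_intCast_le (n : ℤ) : ‖(n : k)‖ ≤ 1 := IsUltrametricDist.norm_intCast_le_one k n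

/-- divided difference -/
noncomputable def dd (s : Finset ℕ) (g : ℕ → k) : k :=
  ∑ i ∈ s, g i / ∏ j ∈ s.erase i, ((i : k) - (j : k))

omit [IsUltrametricDist k] in
theorem dd_sum {ι : Type*} (s : Finset ℕ) (u : Finset ι) (a : ι → k) (g : ι → ℕ → k) :
    dd s (fun t => ∑ r ∈ u, a r * g r t) = ∑ r ∈ u, a r * dd s (g r) := by
  unfold dd
  rw [sum_congr rfl fun i _ => sum_div u (fun r => a r * g r i) _, sum_comm]
  refine sum_congr rfl fun r _ => ?_
  rw [mul_sum]
  exact sum_congr rfl fun i _ => mul_div_assoc _ _ _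

omit [IsUltrametricDist k] in
/-- divided differences of integral polynomials are integers -/
theorem dd_poly [CharZero k] (s : Finset ℕ) (h : ℤ[X]) :
    dd s (fun t => (h.map (Int.castRingHom k)).eval (t : k))
      = (((h %ₘ ∏ i ∈ s, (X - C (i : ℤ))).coeff (s.card - 1) : ℤ) : k) := by
  set q : ℤ[X] := ∏ i ∈ s, (X - C (i : ℤ)) with hq
  have hqm : q.Monic := monic_prod_of_monic _ _ fun i _ => monic_X_sub_C _
  have hqd : q.natDegree = s.card := by
    rw [hq, natDegree_prod_of_monic _ _ fun i _ => monic_X_sub_C _]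
    simp only [natDegree_X_sub_C, sum_const, smul_eq_mul, mul_one]
  set r : ℤ[X] := h %ₘ q with hr
  have hinj : Set.InjOn (fun n : ℕ => (n : k)) s := fun a _ b _ hab => Nat.cast_injective hab
  have hdeg : (r.map (Int.castRingHom k)).degree < s.card := by
    refine lt_of_le_of_lt degree_map_le ?_
    have h1 := degree_modByMonic_lt h hqm
    rw [degree_eq_natDegree hqm.ne_zero, hqd] at h1
    exact h1
  have key := Lagrange.coeff_eq_sum (s := s) (v := fun n : ℕ => (n : k)) hinj hdeg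
  rw [coeff_map, eq_intCast] at key
  rw [key]
  unfold dd
  refine sum_congr rfl fun i hi => ?_
  congr 1
  have h2 : h = r + q * (h /ₘ q) := by
    rw [hr]; exact (modByMonic_add_div h q).symm
  have h3 : (q.map (Int.castRingHom k)).eval (i : k) = 0 := by
    rw [hq, Polynomial.map_prod, eval_prod]
    refine prod_eq_zero hi ?_
    simp
  beta_reduce
  conv_lhs => rw [h2]
  rw [Polynomial.map_add, Polynomial.map_mul, eval_add, eval_mul, h3, zero_mul, add_zero]

omit [IsUltrametricDist k] in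
theorem dd_desc_lt [CharZero k] (s : Finset ℕ) (r : ℕ) (hr : r < s.card - 1) :
    dd s (fun t => ((t.descFactorial r : ℕ) : k)) = 0 := by
  have h0 : (fun t : ℕ => ((t.descFactorial r : ℕ) : k))
      = fun t : ℕ => ((descPochhammer ℤ r).map (Int.castRingHom k)).eval (t : k) := by
    funext t
    rw [descPochhammer_map, descPochhammer_eval_eq_descFactorial]
  rw [h0, dd_poly, (modByMonic_eq_self_iff (monic_prod_of_monic _ _ fun i _ => monic_X_sub_C _)).2,
    coeff_eq_zero_of_natDegree_lt, Int.cast_zero]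
  · rw [descPochhammer_natDegree]; exact hr
  · rw [degree_eq_natDegree (monic_prod_of_monic _ _ fun i _ => monic_X_sub_C _).ne_zero,
      natDegree_prod_of_monic _ _ fun i _ => monic_X_sub_C _]
    simp only [natDegree_X_sub_C, sum_const, smul_eq_mul, mul_one]
    refine lt_of_le_of_lt degree_le_natDegree ?_
    rw [descPochhammer_natDegree]
    exact_mod_cast (by omega : r < s.card)

omit [IsUltrametricDist k] in
theorem dd_desc_eq [CharZero k] (s : Finset ℕ) (hs : s.Nonempty) :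
    dd s (fun t => ((t.descFactorial (s.card - 1) : ℕ) : k)) = 1 := by
  have hpos : 0 < s.card := card_pos.2 hs
  have h0 : (fun t : ℕ => ((t.descFactorial (s.card - 1) : ℕ) : k))
      = fun t : ℕ => ((descPochhammer ℤ (s.card - 1)).map (Int.castRingHom k)).eval (t : k) := by
    funext t
    rw [descPochhammer_map, descPochhammer_eval_eq_descFactorial]
  rw [h0, dd_poly, (modByMonic_eq_self_iff (monic_prod_of_monic _ _ fun i _ => monic_X_sub_C _)).2]
  · have h1 := monic_descPochhammer ℤ (s.card - 1)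
    rw [Monic, leadingCoeff, descPochhammer_natDegree] at h1
    rw [h1, Int.cast_one]
  · rw [degree_eq_natDegree (monic_prod_of_monic _ _ fun i _ => monic_X_sub_C _).ne_zero,
      natDegree_prod_of_monic _ _ fun i _ => monic_X_sub_C _]
    simp only [natDegree_X_sub_C, sum_const, smul_eq_mul, mul_one]
    refine lt_of_le_of_lt degree_le_natDegree ?_
    rw [descPochhammer_natDegree]
    exact_mod_cast (by omega : s.card - 1 < s.card)

theorem dd_desc_le [CharZero k] (s : Finset ℕ) (r : ℕ) :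
    ‖dd s (fun t => ((t.descFactorial r : ℕ) : k))‖ ≤ 1 := by
  have h0 : (fun t : ℕ => ((t.descFactorial r : ℕ) : k))
      = fun t : ℕ => ((descPochhammer ℤ r).map (Int.castRingHom k)).eval (t : k) := by
    funext t
    rw [descPochhammer_map, descPochhammer_eval_eq_descFactorial]
  rw [h0, dd_poly]
  exact norm_intCast_le _

omit [IsUltrametricDist k] in
/-- Newton's formula -/
theorem newton_formula [CharZero k] (f : ℕ → k) (S t : ℕ) (ht : t ≤ S) :
    f t = ∑ r ∈ range (S + 1),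
      ((fwdDiff 1)^[r] f 0 / (r.factorial : k)) * ((t.descFactorial r : ℕ) : k) := by
  have h1 := shift_eq_sum_fwdDiff_iter (1 : ℕ) f t 0
  rw [zero_add, smul_eq_mul, mul_one] at h1
  rw [h1]
  have h2 : range (t + 1) ⊆ range (S + 1) := range_subset_range.2 (by omega)
  rw [← sum_subset h2 (fun r _ hr => ?_)]
  · refine sum_congr rfl fun r _ => ?_
    have h3 : (r.factorial : k) ≠ 0 := by exact_mod_cast r.factorial_ne_zero
    rw [nsmul_eq_mul, Nat.descFactorial_eq_factorial_mul_choose, Nat.cast_mul]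
    field_simp
  · have h3 : t < r := by
      rw [mem_range] at hr
      omega
    rw [Nat.descFactorial_of_lt h3, Nat.cast_zero, mul_zero]

omit [IsUltrametricDist k] in
/-- the last index with maximal absolute value -/
theorem exists_last_max (a : ℕ → k) (ha : Filter.Tendsto (fun r => ‖a r‖) Filter.atTop (nhds 0))
    (h0 : ∃ r, a r ≠ 0) :
    ∃ D, a D ≠ 0 ∧ ∀ r, D < r → ‖a r‖ < ‖a D‖ := by
  obtain ⟨r₀, hr₀⟩ := h0
  have hpos : 0 < ‖a r₀‖ := norm_pos_iff.2 hr₀
  have hfin : {r | ‖a r₀‖ ≤ ‖a r‖}.Finite := by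
    have h1 : ∀ᶠ r in Filter.atTop, ‖a r‖ < ‖a r₀‖ := ha.eventually (gt_mem_nhds hpos)
    obtain ⟨N, hN⟩ := Filter.eventually_atTop.1 h1
    refine (Set.finite_Iio N).subset fun r hr => ?_
    by_contra h2
    exact absurd (hN r (not_lt.1 h2)) (not_lt.2 hr)
  obtain ⟨D₀, hD₀, hmax⟩ := Set.exists_max_image _ (fun r => ‖a r‖) hfin
    ⟨r₀, show ‖a r₀‖ ≤ ‖a r₀‖ from le_rfl⟩
  have hfin2 : {r | ‖a D₀‖ ≤ ‖a r‖}.Finite := hfin.subset fun r hr =>
    show ‖a r₀‖ ≤ ‖a r‖ from le_trans (show ‖a r₀‖ ≤ ‖a D₀‖ from hD₀) hr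
  obtain ⟨D, hD, hlast⟩ := Set.exists_max_image _ (fun r : ℕ => r) hfin2
    ⟨D₀, show ‖a D₀‖ ≤ ‖a D₀‖ from le_rfl⟩
  refine ⟨D, ?_, fun r hr => ?_⟩
  · intro h1
    have h2 : ‖a D₀‖ ≤ ‖a D‖ := hD
    rw [h1, norm_zero] at h2
    exact absurd (lt_of_lt_of_le hpos hD₀) (not_lt.2 h2)
  · by_contra h1
    push Not at h1
    have h2 : ‖a D₀‖ ≤ ‖a r‖ := le_trans hD h1
    exact absurd (hlast r h2) (not_le.2 hr)

variable (l : ℕ) [Fact l.Prime]

omit [IsUltrametricDist k] in
theorem norm_factorial_sq (hl : 3 ≤ l) (hk : ∀ n : ℕ, ‖(n : k)‖ = ((padicNorm l n : ℚ) : ℝ)) (r : ℕ) :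
    ((l : ℝ)⁻¹) ^ r ≤ ‖(r.factorial : k)‖ ^ 2 := by
  have hlp : l.Prime := Fact.out
  have h1 : (l - 1) * padicValNat l r.factorial ≤ r := by
    rw [sub_one_mul_padicValNat_factorial]
    exact Nat.sub_le _ _
  have h2 : 2 * padicValNat l r.factorial ≤ r := by
    refine le_trans ?_ h1
    exact Nat.mul_le_mul_right _ (by omega)
  have hl1 : (1 : ℝ) ≤ l := by exact_mod_cast hlp.one_lt.le
  have hl0 : (0 : ℝ) < l := by linarith
  rw [hk, padicNorm.eq_zpow_of_nonzero (by exact_mod_cast r.factorial_ne_zero)]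
  rw [padicValRat.of_nat, zpow_neg, zpow_natCast, Rat.cast_inv, Rat.cast_pow, Rat.cast_natCast,
    inv_pow, inv_pow, ← pow_mul]
  refine inv_anti₀ (by positivity) ?_
  exact pow_le_pow_right₀ hl1 (by rw [mul_comm]; exact h2)

omit [IsUltrametricDist k] in
theorem coeff_tendsto (hl : 3 ≤ l) (hk : ∀ n : ℕ, ‖(n : k)‖ = ((padicNorm l n : ℚ) : ℝ))
    (f : ℕ → k) (hf : ∀ r, ‖(fwdDiff 1)^[r] f 0‖ ≤ ((l : ℝ)⁻¹) ^ r) :
    Filter.Tendsto (fun r => ‖(fwdDiff 1)^[r] f 0 / (r.factorial : k)‖) Filter.atTop (nhds 0) := by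
  have hlp : l.Prime := Fact.out
  have hl1 : (1 : ℝ) < l := by exact_mod_cast hlp.one_lt
  have hl0 : (0 : ℝ) < l := by linarith
  have hsq : ∀ r, ‖(fwdDiff 1)^[r] f 0 / (r.factorial : k)‖ ^ 2 ≤ ((l : ℝ)⁻¹) ^ r := by
    intro r
    have h1 := norm_factorial_sq l hl hk r
    have hpos : (0 : ℝ) < ((l : ℝ)⁻¹) ^ r := by positivity
    rw [norm_div, div_pow, div_le_iff₀ (lt_of_lt_of_le hpos h1)]
    calc ‖(fwdDiff 1)^[r] f 0‖ ^ 2 ≤ (((l : ℝ)⁻¹) ^ r) ^ 2 :=
          pow_le_pow_left₀ (norm_nonneg _) (hf r) 2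
      _ = ((l : ℝ)⁻¹) ^ r * ((l : ℝ)⁻¹) ^ r := by ring
      _ ≤ ((l : ℝ)⁻¹) ^ r * ‖(r.factorial : k)‖ ^ 2 := mul_le_mul_of_nonneg_left h1 hpos.le
  have hle : ∀ r, ‖(fwdDiff 1)^[r] f 0 / (r.factorial : k)‖ ≤ Real.sqrt (((l : ℝ)⁻¹) ^ r) := fun r =>
    Real.le_sqrt_of_sq_le (hsq r)
  have ht : Filter.Tendsto (fun r : ℕ => Real.sqrt (((l : ℝ)⁻¹) ^ r)) Filter.atTop (nhds 0) := by
    have h1 : Filter.Tendsto (fun r : ℕ => ((l : ℝ)⁻¹) ^ r) Filter.atTop (nhds 0) :=
      tendsto_pow_atTop_nhds_zero_of_lt_one (by positivity) (inv_lt_one_of_one_lt₀ hl1)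
    have h2 := (Real.continuous_sqrt.tendsto 0).comp h1
    rwa [Real.sqrt_zero] at h2
  exact squeeze_zero (fun r => norm_nonneg _) hle ht

omit [IsUltrametricDist k] in
theorem charZero_of_norm (hk : ∀ n : ℕ, ‖(n : k)‖ = ((padicNorm l n : ℚ) : ℝ)) : CharZero k := by
  refine charZero_of_inj_zero fun n hn => ?_
  have h1 := hk n
  rw [hn, norm_zero] at h1
  have h2 : padicNorm l n = 0 := by exact_mod_cast h1.symm
  exact_mod_cast padicNorm.zero_of_padicNorm_eq_zero h2

omit [IsUltrametricDist k] in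
theorem norm_sub_ge (hk : ∀ n : ℕ, ‖(n : k)‖ = ((padicNorm l n : ℚ) : ℝ)) (S i j : ℕ) (hi : i ≤ S)
    (hj : j ≤ S) (hij : i ≠ j) : ((S : ℝ))⁻¹ ≤ ‖(i : k) - (j : k)‖ := by
  have hlp : l.Prime := Fact.out
  wlog h : j < i generalizing i j with H
  · rw [norm_sub_rev]
    exact H j i hj hi hij.symm (lt_of_le_of_ne (not_lt.1 h) hij)
  have h1 : (i : k) - (j : k) = ((i - j : ℕ) : k) := by rw [Nat.cast_sub h.le]
  have h0 : i - j ≠ 0 := by omega
  rw [h1, hk, padicNorm.eq_zpow_of_nonzero (by exact_mod_cast h0), padicValRat.of_nat, zpow_neg,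
    zpow_natCast, Rat.cast_inv, Rat.cast_pow, Rat.cast_natCast]
  refine inv_anti₀ (by have := hlp.pos; positivity) ?_
  have h2 : l ^ padicValNat l (i - j) ≤ i - j := Nat.le_of_dvd (by omega) pow_padicValNat_dvd
  exact_mod_cast (h2.trans (by omega : i - j ≤ S))

/-- the gap principle -/
theorem newton_gap (hl : 3 ≤ l) (hk : ∀ n : ℕ, ‖(n : k)‖ = ((padicNorm l n : ℚ) : ℝ))
    (f : ℕ → k) (hf : ∀ r, ‖(fwdDiff 1)^[r] f 0‖ ≤ ((l : ℝ)⁻¹) ^ r) (hne : ∃ t, f t ≠ 0) :
    ∃ (D : ℕ) (V : ℝ), 0 < V ∧ ∀ (s : Finset ℕ) (S : ℕ) (ε : ℝ), 1 ≤ S → s.card = D + 1 →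
      (∀ t ∈ s, t ≤ S) → (∀ t ∈ s, ‖f t‖ ≤ ε) → V ≤ ε * (S : ℝ) ^ D := by
  have _ : CharZero k := charZero_of_norm l hk
  set a : ℕ → k := fun r => (fwdDiff 1)^[r] f 0 / (r.factorial : k) with ha
  have hne' : ∃ r, a r ≠ 0 := by
    by_contra hcon
    push Not at hcon
    obtain ⟨t, ht⟩ := hne
    apply ht
    rw [newton_formula f t t le_rfl]
    refine sum_eq_zero fun r _ => ?_
    have := hcon r
    rw [ha] at this
    simp only at this
    rw [this, zero_mul]
  obtain ⟨D, hD, hlast⟩ := exists_last_max a (coeff_tendsto l hl hk f hf) hne'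
  refine ⟨D, ‖a D‖, norm_pos_iff.2 hD, fun s S ε hS hs hle hfs => ?_⟩
  have hsne : s.Nonempty := by
    rw [← card_pos]; omega
  have hDS : D ≤ S := by
    have h1 : s ⊆ range (S + 1) := fun t ht => mem_range.2 (by have := hle t ht; omega)
    have h2 := card_le_card h1
    rw [hs, card_range] at h2
    omega
  have hε : 0 ≤ ε := by
    obtain ⟨t, ht⟩ := hsne
    exact (norm_nonneg _).trans (hfs t ht)
  have hS0 : (0 : ℝ) < S := by exact_mod_cast hS
  -- the divided difference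
  have h1 : dd s f = ∑ r ∈ range (S + 1), a r * dd s (fun t => ((t.descFactorial r : ℕ) : k)) := by
    rw [← dd_sum]
    unfold dd
    refine sum_congr rfl fun i hi => ?_
    rw [newton_formula f S i (hle i hi)]
  have h2 : ∑ r ∈ range (S + 1), a r * dd s (fun t => ((t.descFactorial r : ℕ) : k))
      = a D + ∑ r ∈ (range (S + 1)).filter (fun r => D < r),
        a r * dd s (fun t => ((t.descFactorial r : ℕ) : k)) := by
    have hDm : D ∈ range (S + 1) := mem_range.2 (by omega)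
    rw [← add_sum_erase _ _ hDm]
    have h3 : dd s (fun t => ((t.descFactorial D : ℕ) : k)) = (1 : k) := by
      have := dd_desc_eq (k := k) s hsne
      rwa [hs, Nat.add_sub_cancel] at this
    rw [h3, mul_one]
    congr 1
    symm
    refine sum_subset (fun r hr => ?_) (fun r hr hr' => ?_)
    · rw [mem_filter] at hr
      exact mem_erase.2 ⟨by omega, hr.1⟩
    · rw [mem_erase] at hr
      rw [mem_filter, not_and] at hr'
      have h4 := hr' hr.2
      rw [dd_desc_lt s r (by omega), mul_zero]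
  have h3 : ‖∑ r ∈ (range (S + 1)).filter (fun r => D < r),
      a r * dd s (fun t => ((t.descFactorial r : ℕ) : k))‖ < ‖a D‖ := by
    refine norm_sum_lt_of_lt _ _ _ (norm_pos_iff.2 hD) fun r hr => ?_
    rw [mem_filter] at hr
    rw [norm_mul]
    calc ‖a r‖ * ‖dd s (fun t => ((t.descFactorial r : ℕ) : k))‖ ≤ ‖a r‖ * 1 :=
          mul_le_mul_of_nonneg_left (dd_desc_le s r) (norm_nonneg _)
      _ < ‖a D‖ := by rw [mul_one]; exact hlast r hr.2
  have h4 : ‖a D‖ ≤ ‖dd s f‖ := by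
    by_contra hcon
    push Not at hcon
    have h5 : a D = dd s f - ∑ r ∈ (range (S + 1)).filter (fun r => D < r),
        a r * dd s (fun t => ((t.descFactorial r : ℕ) : k)) := by
      rw [h1, h2]; ring
    have h6 : ‖a D‖ < ‖a D‖ := by
      conv_lhs => rw [h5, sub_eq_add_neg]
      refine (IsUltrametricDist.norm_add_le_max _ _).trans_lt (max_lt hcon ?_)
      rw [norm_neg]; exact h3
    exact lt_irrefl _ h6
  refine h4.trans ?_
  unfold dd
  refine norm_sum_le_of_le _ _ _ (by positivity) fun i hi => ?_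
  rw [norm_div, norm_prod]
  have h5 : ((S : ℝ)⁻¹) ^ D ≤ ∏ j ∈ s.erase i, ‖(i : k) - (j : k)‖ := by
    have h6 : (s.erase i).card = D := by rw [card_erase_of_mem hi, hs]; rfl
    rw [← h6, ← prod_const]
    refine prod_le_prod (fun j _ => by positivity) fun j hj => ?_
    exact norm_sub_ge l hk S i j (hle i hi) (hle j (mem_of_mem_erase hj)) (ne_of_mem_erase hj).symm
  have h7 : 0 < ((S : ℝ)⁻¹) ^ D := by positivity
  rw [div_le_iff₀ (lt_of_lt_of_le h7 h5)]
  calc ‖f i‖ ≤ ε := hfs i hi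
    _ = ε * (S : ℝ) ^ D * ((S : ℝ)⁻¹) ^ D := by
        rw [mul_assoc, ← mul_pow, mul_inv_cancel₀ hS0.ne', one_pow, mul_one]
    _ ≤ ε * (S : ℝ) ^ D * ∏ j ∈ s.erase i, ‖(i : k) - (j : k)‖ :=
        mul_le_mul_of_nonneg_left h5 (by positivity)

end

end H65FD
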